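import Pool.Agent.H606.GU.Stm

/-! TASK BLK of project GU (helper606), by helper17. -/

open MeasureTheory Filter Topology Finset
open Pool.Agent.H606.GU

namespace Pool.Agent.H17.GU.BLK

/-- uncurrying, with a translation of each block -/
def psi {j k : ℕ} (c : Fin j → ℝ) : (Fin j → Fin k → ℝ) ≃ₜ (Fin j × Fin k → ℝ) where
  toFun F := fun p => F p.1 p.2 + c p.1
  invFun y := fun l r => y (l, r) - c l
  left_inv F := by
    funext l r
    simp
  right_inv y := by
    funext p
    simp
  continuous_toFun := by
    apply continuous_pi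
    intro p
    have h : Continuous (fun F : Fin j → Fin k → ℝ => F p.1 p.2) :=
      (continuous_apply p.2).comp (f := fun F : Fin j → Fin k → ℝ => F p.1) (continuous_apply p.1)
    exact h.add continuous_const
  continuous_invFun := by
    apply continuous_pi
    intro l
    apply continuous_pi
    intro r
    exact (continuous_apply (l, r)).sub continuous_const

theorem psi_apply {j k : ℕ} (c : Fin j → ℝ) (F : Fin j → Fin k → ℝ) (p : Fin j × Fin k) :
    psi c F p = F p.1 p.2 + c p.1 := rfl

theorem psi_mp {j k : ℕ} (c : Fin j → ℝ) :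
    MeasurePreserving (psi (j := j) (k := k) c) volume volume := by
  refine ⟨(psi c).continuous.measurable, ?_⟩
  symm
  apply Measure.pi_eq
  intro s hs
  rw [Measure.map_apply (psi c).continuous.measurable (MeasurableSet.univ_pi hs)]
  have e : (psi (j := j) (k := k) c) ⁻¹' (Set.pi Set.univ s) =
      Set.pi Set.univ (fun l => Set.pi Set.univ (fun r => (fun z : ℝ => z + c l) ⁻¹' s (l, r))) := by
    ext F
    simp only [Set.mem_preimage, Set.mem_pi, Set.mem_univ, forall_true_left, psi_apply]
    constructor
    · intro h l r
      exact h (l, r)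
    · intro h p
      exact h p.1 p.2
  rw [e, volume_pi, Measure.pi_pi]
  simp only [volume_pi, Measure.pi_pi, measure_preimage_add_right]
  rw [Fintype.prod_prod_type]

theorem t_BLK (hRHO : S_RHO) (hFIS : S_FIS) : S_BLK := by
  intro j k D K hD hk hK hKt i hi
  have hpre : (psi (fun l => (i l : ℝ) * D)) ⁻¹' (blk K D i) = Set.pi Set.univ (fun _ => K) := by
    ext F
    simp only [Set.mem_preimage, blk, Set.mem_ofPred_eq, psi_apply, add_sub_cancel_right,
      Set.mem_pi, Set.mem_univ, forall_true_left]
  have hcpi : IsCompact (Set.pi Set.univ (fun _ : Fin j => K)) := isCompact_univ_pi (fun _ => hK)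
  refine ⟨?_, ?_, ?_⟩
  · intro N x t
    set S : Fin j → Set (Fin k → Fin N) := fun l =>
      {s | Function.Injective s ∧ (fun r => x (s r) - (t + (i l : ℝ) * D)) ∈ K} with hS
    set B : Set (Fin j × Fin k → Fin N) :=
      {s | Function.Injective s ∧ (fun p => x (s p) - t) ∈ blk K D i} with hB
    have h1 : ∏ l, cnt x K (t + (i l : ℝ) * D) = Nat.card ((l : Fin j) → S l) := by
      rw [Nat.card_pi]
      rfl
    have h2 : cnt x (blk K D i) t = Nat.card B := rfl
    rw [h1, h2]
    have hmem : ∀ (l : Fin j) (s : S l) (r : Fin k),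
        0 ≤ x (s.1 r) - (t + (i l : ℝ) * D) ∧ x (s.1 r) - (t + (i l : ℝ) * D) < D := by
      intro l s r
      have h3 := hKt s.2.2
      have h4 := h3 r
      simp only [Nat.cast_zero, zero_mul, zero_add, one_mul] at h4
      exact h4
    refine Nat.card_congr ⟨fun F => ⟨fun p => (F p.1).1 p.2, ?_, ?_⟩,
      fun s => fun l => ⟨fun r => s.1 (l, r), ?_, ?_⟩, ?_, ?_⟩
    · intro p q hpq
      have hpq' : (F p.1).1 p.2 = (F q.1).1 q.2 := hpq
      have h5 : p.1 = q.1 := by
        by_contra hne
        have h6 := hmem p.1 (F p.1) p.2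
        have h7 := hmem q.1 (F q.1) q.2
        rw [hpq'] at h6
        have h8 : i p.1 ≠ i q.1 := fun h => hne (hi h)
        rcases lt_or_gt_of_ne h8 with h9 | h9
        · have h10 : (i p.1 : ℝ) + 1 ≤ i q.1 := by exact_mod_cast h9
          nlinarith [mul_le_mul_of_nonneg_right h10 hD.le]
        · have h10 : (i q.1 : ℝ) + 1 ≤ i p.1 := by exact_mod_cast h9
          nlinarith [mul_le_mul_of_nonneg_right h10 hD.le]
      obtain ⟨l, r⟩ := p
      obtain ⟨l', r'⟩ := q
      simp only at h5
      subst h5
      have h6 : r = r' := (F l).2.1 hpq'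
      rw [h6]
    · intro l
      have h3 := (F l).2.2
      have e : (fun r => x ((F l).1 r) - (t + (i l : ℝ) * D)) =
          (fun r => x ((F l).1 r) - t - (i l : ℝ) * D) := by
        funext r; ring
      rw [e] at h3
      exact h3
    · intro r r' hrr
      have h3 : (l, r) = (l, r') := s.2.1 hrr
      exact (Prod.mk.inj h3).2
    · have h3 := s.2.2 l
      have e : (fun r => x (s.1 (l, r)) - (t + (i l : ℝ) * D)) =
          (fun r => x (s.1 (l, r)) - t - (i l : ℝ) * D) := by
        funext r; ring
      rw [e]
      exact h3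
    · intro F
      funext l
      apply Subtype.ext
      rfl
    · intro s
      apply Subtype.ext
      rfl
  · have e : blk K D i = (psi (fun l => (i l : ℝ) * D)) '' (Set.pi Set.univ (fun _ => K)) := by
      rw [← hpre, Set.image_preimage_eq _ (psi _).surjective]
    rw [e]
    exact hcpi.image (psi _).continuous
  · have hmp := psi_mp (j := j) (k := k) (fun l => (i l : ℝ) * D)
    have hemb := (psi (j := j) (k := k) (fun l => (i l : ℝ) * D)).measurableEmbedding
    rw [← hmp.setIntegral_preimage_emb hemb, hpre]
    have hcr : Continuous (rho : (Fin k → ℝ) → ℝ) := hRHO.1 (Fin k)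
    have hcr2 : Continuous (rho : (Fin j × Fin k → ℝ) → ℝ) := hRHO.1 (Fin j × Fin k)
    have hle : ∀ F : Fin j → Fin k → ℝ, rho (psi (fun l => (i l : ℝ) * D) F) ≤ ∏ l, rho (F l) := by
      intro F
      refine (hFIS.2.2.1 j (Fin k) _).trans (le_of_eq ?_)
      apply Finset.prod_congr rfl
      intro l _
      have h3 := hRHO.2.2.1 (Fin k) (fun r => F l r + (i l : ℝ) * D) ((i l : ℝ) * D)
      simp only [add_sub_cancel_right] at h3
      exact h3.symm
    have hc3 : Continuous (fun F : Fin j → Fin k → ℝ => ∏ l, rho (F l)) :=
      continuous_finsetProd _ (fun l _ => hcr.comp (continuous_apply l))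
    calc ∫ F in Set.pi Set.univ (fun _ => K), rho (psi (fun l => (i l : ℝ) * D) F)
        ≤ ∫ F in Set.pi Set.univ (fun _ : Fin j => K), ∏ l, rho (F l) := by
          apply setIntegral_mono_on
          · exact (hcr2.comp (psi _).continuous).continuousOn.integrableOn_compact hcpi
          · exact hc3.continuousOn.integrableOn_compact hcpi
          · exact hcpi.measurableSet
          · exact fun F _ => hle F
      _ = ∫ F : Fin j → Fin k → ℝ, ∏ l, K.indicator rho (F l) := by
          rw [← integral_indicator hcpi.measurableSet]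
          congr 1
          funext F
          by_cases hF : F ∈ Set.pi Set.univ (fun _ : Fin j => K)
          · rw [Set.indicator_of_mem hF]
            apply Finset.prod_congr rfl
            intro l _
            rw [Set.indicator_of_mem (hF l (Set.mem_univ l))]
          · rw [Set.indicator_of_notMem hF]
            simp only [Set.mem_pi, Set.mem_univ, forall_true_left, not_forall] at hF
            obtain ⟨l, hl⟩ := hF
            exact (Finset.prod_eq_zero (Finset.mem_univ l) (Set.indicator_of_notMem hl _)).symm
      _ = (∫ y, K.indicator rho y) ^ j := by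
          have h4 := integral_fintype_prod_volume_eq_pow (ι := Fin j) (𝕜 := ℝ)
            (E := Fin k → ℝ) (K.indicator rho)
          rw [Fintype.card_fin] at h4
          exact h4
      _ = (∫ y in K, rho y) ^ j := by
          rw [integral_indicator hK.measurableSet]

end Pool.Agent.H17.GU.BLK
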